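import Mathlib

/-!
# MP_5fc97f_co: the inverse connection matrix of a connected complex whose largest eigenvalue, which
is also its spectral radius, is not simple
-/

set_option autoImplicit false
set_option linter.unusedSectionVars false

open Finset

namespace Pool.Agent.Results.MP_5fc97f_co.DoubleTop

/-! ### Definitions -/

/-- `G` is a finite abstract simplicial complex (a family of nonempty sets). -/
def IsComplex {V : Type} [DecidableEq V] (G : Finset (Finset V)) : Prop :=
  ∀ x ∈ G, x.Nonempty ∧ ∀ y, y ⊆ x → y.Nonempty → y ∈ G

/-- Connectedness of the graph on `G` in which two simplices are adjacent if they intersect. -/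
def IsConnected {V : Type} [DecidableEq V] (G : Finset (Finset V)) : Prop :=
  G.Nonempty ∧ ∀ x ∈ G, ∀ y ∈ G,
    Relation.ReflTransGen (fun a b => b ∈ G ∧ (a ∩ b).Nonempty) x y

/-- The connection matrix. -/
def connMatrix {V : Type} [DecidableEq V] (G : Finset (Finset V)) : Matrix G G ℝ :=
  Matrix.of fun x y => if ((x : Finset V) ∩ y).Nonempty then 1 else 0

/-- `μ` is an eigenvalue of the real matrix `M`. -/
def IsEigenvalue {ι : Type} [Fintype ι] [DecidableEq ι] (M : Matrix ι ι ℝ) (μ : ℝ) : Prop :=
  Module.End.HasEigenvalue (Matrix.toLin' M) μ

/-- The dimension of the eigenspace of `M` for `μ`. -/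
noncomputable def eigenDim {ι : Type} [Fintype ι] [DecidableEq ι] (M : Matrix ι ι ℝ) (μ : ℝ) : ℕ :=
  Module.finrank ℝ (Module.End.eigenspace (Matrix.toLin' M) μ)

/-! ### The abstract argument -/

section abs

variable {ι : Type} [Fintype ι] [DecidableEq ι]

/-- the value of the quadratic form with matrix `g` -/
def qf (g : Matrix ι ι ℝ) (y : ι → ℝ) : ℝ := ∑ i, ∑ j, g i j * y i * y j

theorem qf_eq (g : Matrix ι ι ℝ) (y : ι → ℝ) : qf g y = ∑ i, y i * (g.mulVec y) i := by
  unfold qf Matrix.mulVec dotProduct
  apply Finset.sum_congr rfl
  intro i _
  rw [Finset.mul_sum]
  apply Finset.sum_congr rfl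
  intro j _
  ring

theorem qf_eigen {g : Matrix ι ι ℝ} {y : ι → ℝ} {μ : ℝ} (h : g.mulVec y = μ • y) :
    qf g y = μ * ∑ i, y i ^ 2 := by
  rw [qf_eq, h, Finset.mul_sum]
  apply Finset.sum_congr rfl
  intro i _
  simp only [Pi.smul_apply, smul_eq_mul]
  ring

theorem sum_sq_pos {y : ι → ℝ} (h : y ≠ 0) : 0 < ∑ i, y i ^ 2 := by
  obtain ⟨i, hi⟩ := Function.ne_iff.1 h
  apply Finset.sum_pos'
  · intro i _; positivity
  · exact ⟨i, Finset.mem_univ i, by
      have : y i ≠ 0 := hi
      positivity⟩

theorem exists_eigenvalue_gt {g : Matrix ι ι ℝ} (hg : g.IsHermitian) {c : ℝ} {x : ι → ℝ}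
    (hx : c * ∑ i, x i ^ 2 < qf g x) :
    ∃ ν > c, Module.End.HasEigenvalue (Matrix.toLin' g) ν := by
  have hM : (c • (1 : Matrix ι ι ℝ) - g).IsHermitian := by
    apply Matrix.IsHermitian.sub _ hg
    unfold Matrix.IsHermitian
    rw [Matrix.conjTranspose_smul, Matrix.conjTranspose_one]
    simp
  have hnot : ¬ (c • (1 : Matrix ι ι ℝ) - g).PosSemidef := by
    intro h
    have h1 := h.dotProduct_mulVec_nonneg x
    rw [Matrix.sub_mulVec, Matrix.smul_mulVec, Matrix.one_mulVec] at h1
    have h2 : star x ⬝ᵥ (c • x - g.mulVec x) = c * ∑ i, x i ^ 2 - qf g x := by
      rw [qf_eq, Finset.mul_sum, ← Finset.sum_sub_distrib]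
      unfold dotProduct
      apply Finset.sum_congr rfl
      intro i _
      simp
      ring
    rw [h2] at h1
    linarith
  rw [hM.posSemidef_iff_eigenvalues_nonneg] at hnot
  have : ∃ i, hM.eigenvalues i < 0 := by
    by_contra h
    push Not at h
    exact hnot (fun i => h i)
  obtain ⟨i, hi⟩ := this
  have h1 := hM.mulVec_eigenvectorBasis i
  refine ⟨c - hM.eigenvalues i, by linarith, ?_⟩
  apply Module.End.hasEigenvalue_of_hasEigenvector (x := ⇑(hM.eigenvectorBasis i))
  rw [Module.End.hasEigenvector_iff, Module.End.mem_eigenspace_iff]
  refine ⟨?_, ?_⟩
  · rw [Matrix.toLin'_apply]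
    rw [Matrix.sub_mulVec, Matrix.smul_mulVec, Matrix.one_mulVec] at h1
    rw [sub_smul, ← h1]
    abel
  · intro h
    have h2 := hM.eigenvectorBasis.orthonormal.ne_zero i
    apply h2
    ext j
    exact congrFun h j

theorem main {g : Matrix ι ι ℝ} (hg : g.IsHermitian) (σ : ι → ι)
    (hσ3 : ∀ i, σ (σ (σ i)) = i) (hσ : ∀ i j, g (σ i) (σ j) = g i j) {c : ℝ}
    (hA : ∃ x : ι → ℝ, c * ∑ i, x i ^ 2 < qf g x)
    (hB : ∀ y : ι → ℝ, (∀ i, y (σ i) = y i) → qf g y ≤ c * ∑ i, y i ^ 2)
    (hC : ∀ y : ι → ℝ, -c * ∑ i, y i ^ 2 ≤ qf g y) :
    ∃ μ : ℝ, Module.End.HasEigenvalue (Matrix.toLin' g) μ ∧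
      (∀ ν, Module.End.HasEigenvalue (Matrix.toLin' g) ν → ν ≠ μ → |ν| < μ) ∧
      2 ≤ Module.finrank ℝ (Module.End.eigenspace (Matrix.toLin' g) μ) := by
  obtain ⟨x, hx⟩ := hA
  obtain ⟨ν₀, hν₀, hν₀'⟩ := exists_eigenvalue_gt hg hx
  have hfin : Set.Finite {ν | Module.End.HasEigenvalue (Matrix.toLin' g) ν} :=
    Module.End.finite_hasEigenvalue _
  obtain ⟨μ, hμ, hmax⟩ := Set.exists_max_image _ id hfin ⟨ν₀, hν₀'⟩
  simp only [id] at hmax
  have hcμ : c < μ := lt_of_lt_of_le hν₀ (hmax ν₀ hν₀')
  refine ⟨μ, hμ, ?_, ?_⟩
  · intro ν hν hne
    have h1 : ν ≤ μ := hmax ν hν
    have h2 : ν < μ := lt_of_le_of_ne h1 hne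
    obtain ⟨y, hy⟩ := hν.exists_hasEigenvector
    rw [Module.End.hasEigenvector_iff, Module.End.mem_eigenspace_iff, Matrix.toLin'_apply] at hy
    have h3 := hC y
    rw [qf_eigen hy.1] at h3
    have h4 := sum_sq_pos hy.2
    have h5 : -c ≤ ν := le_of_mul_le_mul_right h3 h4
    rw [abs_lt]
    exact ⟨by linarith, h2⟩
  · by_contra hlt
    push Not at hlt
    have hle : Module.finrank ℝ (Module.End.eigenspace (Matrix.toLin' g) μ) ≤ 1 := by omega
    rw [finrank_le_one_iff] at hle
    obtain ⟨⟨v, hv⟩, hspan⟩ := hle
    obtain ⟨w, hw⟩ := Module.End.HasEigenvalue.exists_hasEigenvector hμ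
    have hv0 : v ≠ 0 := by
      rintro rfl
      obtain ⟨t, ht⟩ := hspan ⟨w, hw.1⟩
      have := congrArg Subtype.val ht
      simp at this
      exact hw.2 this.symm
    have hv' := hv
    rw [Module.End.mem_eigenspace_iff, Matrix.toLin'_apply] at hv'
    have hbij : Function.Bijective σ := by
      refine ⟨fun a b h => ?_, fun a => ⟨σ (σ a), hσ3 a⟩⟩
      rw [← hσ3 a, ← hσ3 b, h]
    have hS : g.mulVec (fun i => v (σ i)) = μ • fun i => v (σ i) := by
      funext i
      have h1 := congrFun hv' (σ i)
      simp only [Matrix.mulVec, dotProduct, Pi.smul_apply, smul_eq_mul] at h1 ⊢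
      have h2 : ∑ j, g (σ i) j * v j = ∑ j, g (σ i) (σ j) * v (σ j) :=
        (hbij.sum_comp fun j => g (σ i) j * v j).symm
      rw [← h1, h2]
      apply Finset.sum_congr rfl
      intro j _
      rw [hσ]
    obtain ⟨t, ht⟩ := hspan ⟨fun i => v (σ i), by
      rw [Module.End.mem_eigenspace_iff, Matrix.toLin'_apply]; exact hS⟩
    have ht' : ∀ i, t * v i = v (σ i) := fun i => congrFun (congrArg Subtype.val ht) i
    obtain ⟨i, hi⟩ := Function.ne_iff.1 hv0
    have hi' : v i ≠ 0 := hi
    have ht3 : t ^ 3 = 1 := by
      have h1 := ht' i
      have h2 := ht' (σ i)
      have h3 := ht' (σ (σ i))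
      rw [hσ3] at h3
      have h4 : t ^ 3 * v i = 1 * v i := by
        rw [one_mul]
        calc t ^ 3 * v i = t * (t * (t * v i)) := by ring
          _ = v i := by rw [h1, h2, h3]
      exact mul_right_cancel₀ hi' h4
    have ht1 : t = 1 := by
      have : (t - 1) * (t ^ 2 + t + 1) = 0 := by linear_combination ht3
      rcases mul_eq_zero.1 this with h | h
      · linarith
      · exfalso
        nlinarith [sq_nonneg (t + 1 / 2)]
    have h6 := hB v (fun i => by rw [← ht' i, ht1, one_mul])
    rw [qf_eigen hv'] at h6
    have h7 := sum_sq_pos hv0
    have h8 : μ ≤ c := le_of_mul_le_mul_right h6 h7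
    linarith

end abs

/-! ### A certificate for nonnegativity of an integral quadratic form -/

/-- scalar product of lists -/
def dotL : List ℤ → List ℤ → ℤ
  | a :: as, b :: bs => a * b + dotL as bs
  | _, _ => 0

theorem dotL_eq : ∀ (a b : List ℤ) (n : ℕ), a.length ≤ n →
    dotL a b = ∑ k ∈ Finset.range n, a.getD k 0 * b.getD k 0 := by
  intro a
  induction a with
  | nil =>
    intro b n _
    simp [dotL]
  | cons x a ih =>
    intro b n hn
    simp only [List.length_cons] at hn
    obtain ⟨n, rfl⟩ : ∃ m, n = m + 1 := ⟨n - 1, by omega⟩
    cases b with
    | nil => simp [dotL]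
    | cons y b =>
      rw [Finset.sum_range_succ']
      simp only [dotL, List.getD_cons_succ, List.getD_cons_zero]
      rw [ih b n (by omega)]
      ring

theorem cert {n : ℕ} (M : Fin n → Fin n → ℤ) (A : Fin n → List ℤ) (s : ℤ) (hs : 0 < s)
    (hlen : ∀ i, (A i).length ≤ n)
    (h : ∀ i, ∑ j, |s * s * M i j - dotL (A i) (A j)| ≤ 2 * (s * s * M i i - dotL (A i) (A i)))
    (hM : ∀ i j, M i j = M j i) (y : Fin n → ℝ) :
    0 ≤ ∑ i, ∑ j, (M i j : ℝ) * y i * y j := by
  classical
  set E : Fin n → Fin n → ℤ := fun i j => s * s * M i j - dotL (A i) (A j) with hE
  set a : Fin n → ℕ → ℝ := fun i k => ((A i).getD k 0 : ℤ) with ha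
  have hdot : ∀ i j, ((dotL (A i) (A j) : ℤ) : ℝ) = ∑ k ∈ Finset.range n, a i k * a j k := by
    intro i j
    rw [dotL_eq _ _ n (hlen i)]
    push_cast
    rfl
  have hsymm : ∀ i j, E i j = E j i := by
    intro i j
    have : ((dotL (A i) (A j) : ℤ) : ℝ) = ((dotL (A j) (A i) : ℤ) : ℝ) := by
      rw [hdot, hdot]
      exact Finset.sum_congr rfl fun k _ => mul_comm _ _
    have h2 : dotL (A i) (A j) = dotL (A j) (A i) := by exact_mod_cast this
    simp only [hE, hM i j, h2]
  have h1 : (s : ℝ) * s * ∑ i, ∑ j, (M i j : ℝ) * y i * y j
      = ∑ k ∈ Finset.range n, (∑ i, a i k * y i) ^ 2 + ∑ i, ∑ j, (E i j : ℝ) * y i * y j := by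
    have e1 : ∑ k ∈ Finset.range n, (∑ i, a i k * y i) ^ 2
        = ∑ i, ∑ j, ((dotL (A i) (A j) : ℤ) : ℝ) * y i * y j := by
      simp only [pow_two, Finset.sum_mul_sum]
      rw [Finset.sum_comm]
      apply Finset.sum_congr rfl
      intro i _
      rw [Finset.sum_comm]
      apply Finset.sum_congr rfl
      intro j _
      rw [hdot, Finset.sum_mul, Finset.sum_mul]
      apply Finset.sum_congr rfl
      intro k _
      ring
    rw [e1, Finset.mul_sum, ← Finset.sum_add_distrib]
    apply Finset.sum_congr rfl
    intro i _
    rw [Finset.mul_sum, ← Finset.sum_add_distrib]
    apply Finset.sum_congr rfl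
    intro j _
    simp only [hE]
    push_cast
    ring
  have h2 : 0 ≤ ∑ i, ∑ j, (E i j : ℝ) * y i * y j := by
    -- the off diagonal entries
    have e2 : ∀ i j, (E i j : ℝ) * y i * y j ≥ (if i = j then 2 * (E i i : ℝ) * y i ^ 2 else 0)
        - |(E i j : ℝ)| * (y i ^ 2 + y j ^ 2) / 2 := by
      intro i j
      have hEii : i = j → 0 ≤ (E i i : ℝ) := by
        intro _
        have h3 : 0 ≤ ∑ j, |E i j| := Finset.sum_nonneg fun j _ => abs_nonneg _
        have h4 : 0 ≤ E i i := by
          have := h i
          simp only [hE] at h3 ⊢
          omega
        exact_mod_cast h4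
      by_cases hij : i = j
      · subst hij
        rw [if_pos rfl, abs_of_nonneg (hEii rfl)]
        nlinarith [hEii rfl]
      · rw [if_neg hij]
        have h5 : -(|(E i j : ℝ)| * (y i ^ 2 + y j ^ 2) / 2) ≤ (E i j : ℝ) * y i * y j := by
          have h6 : |(E i j : ℝ) * (y i * y j)| ≤ |(E i j : ℝ)| * ((y i ^ 2 + y j ^ 2) / 2) := by
            rw [abs_mul]
            apply mul_le_mul_of_nonneg_left _ (abs_nonneg _)
            rw [abs_le]
            constructor <;> nlinarith [sq_nonneg (y i + y j), sq_nonneg (y i - y j)]
          have h7 := neg_abs_le ((E i j : ℝ) * (y i * y j))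
          have h8 : (E i j : ℝ) * y i * y j = (E i j : ℝ) * (y i * y j) := by ring
          rw [h8]
          linarith
        linarith
    have e3 : ∑ i, ∑ j, ((if i = j then 2 * (E i i : ℝ) * y i ^ 2 else 0)
        - |(E i j : ℝ)| * (y i ^ 2 + y j ^ 2) / 2)
        = ∑ i, (2 * (E i i : ℝ) - ∑ j, |(E i j : ℝ)|) * y i ^ 2 := by
      simp only [Finset.sum_sub_distrib]
      have e4 : ∑ i, ∑ j, (if i = j then 2 * (E i i : ℝ) * y i ^ 2 else 0)
          = ∑ i, 2 * (E i i : ℝ) * y i ^ 2 := by
        apply Finset.sum_congr rfl
        intro i _
        rw [Finset.sum_ite_eq]
        simp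
      have e5 : ∑ i, ∑ j, |(E i j : ℝ)| * (y i ^ 2 + y j ^ 2) / 2
          = ∑ i, (∑ j, |(E i j : ℝ)|) * y i ^ 2 := by
        have e6 : ∀ i j, |(E i j : ℝ)| * (y i ^ 2 + y j ^ 2) / 2
            = |(E i j : ℝ)| * y i ^ 2 / 2 + |(E j i : ℝ)| * y j ^ 2 / 2 := by
          intro i j
          rw [hsymm j i]
          ring
        simp only [e6, Finset.sum_add_distrib]
        rw [Finset.sum_comm (f := fun i j => |(E j i : ℝ)| * y j ^ 2 / 2), ← Finset.sum_add_distrib]
        apply Finset.sum_congr rfl
        intro i _
        rw [← Finset.sum_add_distrib, Finset.sum_mul]
        apply Finset.sum_congr rfl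
        intro j _
        ring
      rw [e4, e5, ← Finset.sum_sub_distrib]
      apply Finset.sum_congr rfl
      intro i _
      ring
    have e7 : 0 ≤ ∑ i, (2 * (E i i : ℝ) - ∑ j, |(E i j : ℝ)|) * y i ^ 2 := by
      apply Finset.sum_nonneg
      intro i _
      apply mul_nonneg _ (sq_nonneg _)
      have h9 : ∑ j, |E i j| ≤ 2 * E i i := h i
      have h10 : ((∑ j, |E i j| : ℤ) : ℝ) ≤ ((2 * E i i : ℤ) : ℝ) := by exact_mod_cast h9
      push_cast at h10
      linarith
    calc (0 : ℝ) ≤ _ := e7
      _ = _ := e3.symm
      _ ≤ _ := Finset.sum_le_sum fun i _ => Finset.sum_le_sum fun j _ => e2 i j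
  have h3 : 0 ≤ (s : ℝ) * s * ∑ i, ∑ j, (M i j : ℝ) * y i * y j := by
    rw [h1]
    have : 0 ≤ ∑ k ∈ Finset.range n, (∑ i, a i k * y i) ^ 2 :=
      Finset.sum_nonneg fun k _ => sq_nonneg _
    linarith
  have hs' : (0 : ℝ) < (s : ℝ) * s := by
    have : (0 : ℝ) < s := by exact_mod_cast hs
    positivity
  exact nonneg_of_mul_nonneg_right h3 hs'

/-! ### The example -/

section ex

/-- the bit masks of the 46 simplices -/
def masks : List ℕ := [1, 2, 4, 8, 16, 32, 64, 3, 5, 6, 9, 10, 12, 17, 18, 20, 24, 33, 34, 36,
   40, 48, 65, 66, 68, 72, 80, 96, 11, 13, 19, 22, 25, 26, 37, 38, 41, 44, 50, 52, 73, 82, 100,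
   27, 45, 54]

/-- the rows of the inverse of the connection matrix, in base 2048 with offset 1024 -/
def gT : List ℕ := [
  104799721139479072639413954457296228529412371789935234441335815955946263059302374882185197871374319206245431793706236190519681949622548959036583536755712,
  104901964647999027828845358793325291867605770727328108532150933368701294379422084205961079892869304937945055815034478868185493024988076886578427773060096,
  104902014571599075046327822107577462902783368361209980498348084557627918616550069267673509770455043276967801453325469322607499268393313290610028807455744,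
  104799721139479072639413954457626756513769036356075685615161558558595579553524859183430441389286658513477169189392604627340830474534844223589157538104322,
  104901964647999027828846745128172352196231547550805216113404335952309427439408426595294702061099275098205737186328316548821824645209418781211765906609152,
  104902014571599075046327822784498936334615314119753629928301530658404386664995427838785173722098633702388314065523352033170632551356618010517904805594112,
  104799671167125521374563216632552235981246411306847773546093910246750916858207547764752792932674419812202378816506703696594065558116639629008427183768576,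
  104799671142724946482011659969953908691420122045811864609646634210122840646719357694109899033516773538422814212152758199138399185087824366487481087951872,
  104799621219136801975479647172397649733530827765650659454016834125566940440034378954852936109757215666345015405550489613330959683825015057631115051271168,
  104697377710616852597918824111365147024316799481872632137328522311493025580461915338972365025339541551275183897916371906312498535667403981358643713934336,
  104799621194748141423296744097949045568984536755657196118701874405007350806832397755691073120290969437049925254432371349472445935636773729769443146335230,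
  104799671142724946482011659969953908691420103257471204606231535877289990704525365806270873120127238869088449673218844740355228300998225351698048239010816,
  104799621219136801975479647172067121749174181987850868283606189855750534596408761528093610621548181781562379299974441611346438367741661089221508069327872,
  104799671142724946482011659969953908691420122036637870145686869644889498693949094653019871877652878315162208638403280535680192301483067736800835867247616,
  104697377686228186233865339761919982309556671689377111781588892640639767854965968338206043380461328581196608970111307324107133933859261220459727607034880,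
  104697377710616852597917437776518086695691022667569519020034884293242565282333808643563824223575772929607737815960763262492246185286397090321549110543360,
  104799671142724946482011659969953908691420103248297210142271771312056648751755102765180845964263343550046872806501688687221635360947633962326680548672512,
  104799621219136801975479647172397488342913447333863805960136577455285249874619837981469845247515481052034132426386840273453856844211865380755508482278400,
  104697377710616852597918823434443834983102234155115836201255333135627745109599083683499115128737762518032775629868471832629443745063036843673540295132160,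
  104697327762628139016382876447667811195575061662710760881385488896597544334627368588705789041224100267722784335798146492192965526241167083508633488589824,
  104799621219136801975479647172066960358556801556064014789725933185468844030994220554708834762639946411693560466147167930842443152108009997547311592375296,
  104697377710616852597917437099596774654476457340812723083961695117377284811470976984639701153980446513759467238054429879050811648574194365429123278439424,
  104799671167113607028516135510842922632970918887395613232271700598737171033316318598476760731466202508082087709100148777385975415227808352401647569208320,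
  104799671167113601216645554912767512654588751907921856115459726665501795055068860850417207372327893511605920089290963063317630758150151959943899204551680,
  104799671167101698505696490054327876927910777945667280884537111399451791604275392824451928679823347388970864909205542399738402277087106582328128657425408,
  104799671167113607028516135510842922632970918887395613232271700598737110324913443611831553611818932606306258105560491707961523798565836498067548666856447,
  104799671167113601216645554912767512654588751907921856115459726665377464245980888201033026334719134674706892040073284882040719834431794283709347187915776,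
  104799671167101698505696490054327876927910777945667280884537111144822294592107406885649163657085249419761420111400627144624830501890585653965598587094016,
  104799671191502267580699038585291365406938307978104395092283865334709127976554430458254069048262945390583150060664225934931191481841171462354090483254272,
  104799721115090412087231051382847624364789123736589435951558648952179156057885113132251084235182740720628030644514628438425240165690433595433161785869312,
  104799671191502267580699038585291365406938307978104397279534068636511110720618572853779201600623147107886785159641216258059813240726437658188449918747648,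
  104901964623610361464791874443880126995237618149254671327294621816063639805154621390082075896867034634119519056933423322018693459522796990360911072986112,
  104799671191502267580699038585291365406938307987278389556243629899942469929324693499344096204126840613843755623263330999124086794829184683185975783848960,
  104799671191502267580699038585291365406938326766445057282949166969343960662812564741618227514012681777221149698575127058386992555135406592815599443772415,
  104799721115090412087231051382847624364827602258265602434096396684316497514544125462047621267890581894695036060955568751325921046295334292334905592382464,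
  104901964623610361464791874443880127074041630542039150262368346407929752530752963042456725118615138971920184863713507348084937352625815236314370754479104,
  104799721115090412087231051382847785755406504168376289445438905622460846623299654105634175097424279175509682789904407909882868075213089931074994593334272,
  104799721115090412087231051383178152349184248036065393604507040954132903358169742888806946756099615779477672166526172235439707656448284088370681597658111,
  104901964623610361464791875120801439036452183476011467263367810991928920276017453045555325793067079156297179756095832872617091424796727530329861649335296,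
  104901964623610361464793260778727187402667407356342263379661984426180212828881069737865265920378907593540862893274527098523305613660015185440816054139904,
  104799671167113607034194563044402351465387511136520648656909523729106721962459689604120313589945628980946287170699922562077618445257981672275820001887233,
  104799671167113612846065143642477761443769678115994405773721497662342097940692680408413461538193309937486371773701512837998345534306538353157384395820032,
  104799671167125515557014208500917397170447652078248981004644112928392101361857847600780458726691630271023408531831476175256794691773374422748382900519936,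
  104799671142724946482011659969953908691420122045811866796897880474344706647659669533827497187495433607544006270490068906668958818116548233770105669946369,
  104799621219136801975479647172397649733569306287326825938690568893625191979088412990819025257067761362768673591927582495716241520627304681507704656626689,
  104697377710616852597918824111365147103120811874666070051370958120201368075182530768459500829076584487121867884384966722381599552806967125517281917930496]

/-- the permutation of the simplices -/
def sT : List ℕ := [1, 2, 0, 4, 5, 3, 6, 9, 7, 8, 14, 15, 13, 18, 19, 17, 21, 11, 12, 10, 16, 20,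
   23, 24, 22, 26, 27, 25, 31, 30, 35, 34, 38, 39, 28, 29, 33, 32, 37, 36, 41, 42, 40, 45, 43, 44]

/-- a test vector -/
def xT : List ℤ := [-6, 6, 0, -6, 6, 0, 0, 0, 0, 0, 9, 0, 0, 0, -10, 0, 0, 0, 0, 1, 0, 0, 3, -3,
   0, 3, -3, 0, -2, 0, 2, 1, -2, 2, 2, -2, 0, 2, 1, -2, -4, 4, 0, 0, -3, 2]

/-- certificate for `149 + 20 g` -/
def cT : List ℕ := [
  1502,
  3077120,
  6301942784,
  12743170065542,
  26098012294231040,
  53448729178585170944,
  105552287612964953916416,
  227051417407883888193176576,
  465001302851346203019625628672,
  952322668239557023784193287521280,
  1990597125208251869660011048183268218,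
  3994330776687846983086137042623656887296,
  8180389430656710621360408663293249305183232,
  16708835885471330671084318536769131776437126144,
  34881939187643450582871664352018118954963355554816,
  70269010146429263843357588476079162846673413752226816,
  143527808894670660136606754442212423460343194064676455424,
  293944952616285511594987935758425745909703312397206418359296,
  601999262955019268983172800727403102583175235129056535878042624,
  1250172288390169449410812193654155802569621924515357660471902602240,
  2524967916622431821731663473631430926881842537465798621251659704042496,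
  5171134293242740370906446793997170538254013516729955576323399073879032832,
  10569280867791196438169348891446839343059016036060289442787783977340936127488,
  21645880149832953626603743906709578935677586747622871109418833004872466140496896,
  44330762539790485644338543863400955808354537266544087252529607070428412321432863744,
  90485859667540024584874123270657836085555502023363833040644091596665245652660342752189,
  185315040599121963282418787779540165680244120104941851973010497920559874515926610907884544,
  379525203147001780795326273989552335655599696123007752448137946961746460085067300805042766848,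
  774138728905733930735433736090811141900329603582166785249191467204374167449734628713408745178112,
  1585436116798943090146168284446692415439286760815141506245813901593017881825554632436999081735226368,
  3231662369369295150906547654009342405868188338212345201704675042303754540469833460162005008172961498112,
  6649801028278384649939157253461091703920832279510362273854954319324606253249571016072342142001973896938496,
  13472003940021185736990316779460863680193637221333778917761359366922242311493844687528194474825519784190143488,
  27288977686570781820555380826434525943058084429048038342954829908194642148887059894730402266153691529663911822269,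
  56851874822682323619793800310734147607202995128031956833346539081023412284048101247648768962424759759776278615426048,
  116432870470378961468255190054341300246669546134803623457908005098462759747095083360319732361849326274343235108529505280,
  237001920899927558979751744346262150124054866244608892203257565936890390245074803851182312720812488735343455083613722248192,
  479742244360832157420849178159807640966702346570573952176260849027480203431558766197691415223533292664683114907491328109577149,
  993379212777893332200173527958054984196702791849397907058131418271109267938277982055997554665988385133765114646567661749453980672,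
  2012184813844917883466558437993527283263400840034620242209074775023844955632549165462006088508946011022864410445846251203804501240832,
  4299987169273695549088076690336769743524661535310836279049284176968742704712419000244445830792198396886742318546748341695191676396504131,
  8806345347164108977936726738712485616708321809430013671219401088165263243005226455527803560188677415706638332462856726910368019094276545536,
  18035389393823765081724774012303064143708659267403846949150499904721090049458352778622256831483878872598896281791556086221842514405869129565184,
  31107778102903072905125643219287068759481858536852422560312882671611543716821198348583090439660955535941018148544637830546466873537335615027289155,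
  62307332731047428726624464487452184808904856449565114379487055345210094206916457653157898459236141576940572417083164851830075360545323214411789239363,
  117167836351024672948042589145548476448634910205789826892371215915834184533942148935156703901601013979016180926541667474000379784588198432416988359957504]

/-- certificate for `3 (149 - 20 g) + 6 (2 - S - Sᵀ)` -/
def bT : List ℕ := [
  1873,
  3836917,
  7858007029,
  15835533929246,
  32431087587750912,
  66418867293814522880,
  145397254812177585406976,
  283115352292512316170175488,
  579818579222063253401404179456,
  1187468448584512540995960644305920,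
  2129491066174071864346146546946940130,
  4980617949560254560780761881351672562688,
  10200305560699401340479000333008225408386048,
  20812113590826465726527035390376064003256353792,
  37211207422139828935156426006655308584069238297600,
  87619957607122459243786450683473389244921680240837632,
  178775206334586103878848737334966305762387614665482961920,
  366131622058783798469723458429947067507641171710363100513280,
  749838151513552316131516562749139888351606346779316406435447808,
  1334093020813550961785368792374473752653906875742905725652108837888,
  3145046689966895387637349171216238663616549854354340145776568265868288,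
  6441035401092203743665224216745411313013366157942278449976023065001198592,
  12979260264170304222966142361784617542852653005889097437796727207819061756928,
  26581503818797059621018065651997368712994309903129331642495616903812640258655232,
  54438919799694154171438303081604530541713964266539509254446951655536183913809445888,
  110277065920583697763381465047106130847279045815748301642479464181050558696086814332017,
  225847006046535302247606362719012464423809165449477315374573178928424897030546548597165056,
  462534667958345478892326031761860987468628609465664752189120215272225862788325989742142292992,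
  945187865631381951260885092817377859590049303342030581066438779442960685875016767662492821226496,
  1935745270294280359935939478715206095149112159116536008306708078918578803043983923880883517535552512,
  3944705143519036490671076118288216748458213757673086841388752862854815803426749546345949163526186599424,
  8092227180448043471368373191065035373723359068166027716356790688303990249000859170607154758337009622713344,
  16536185747037286239925297933890489100860775340906064572839564860928144372174101382152117616921930425790860288,
  33716700283694453404127241766162444431878414307777588593764388112743152596747032465549443439718762021813735134321,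
  68932665413740679222038350056726784524741896085364526976992829742847844488589402082369133146808565421635493343265792,
  141178139255458083501431339657919395614927021846238659574120736847094136199809062695743620304775841588199864642104722432,
  290101727645791020385077512647233541375409498738934141383046466508972157259241007721867859880140394155098897584026292323328,
  588854730446119033953862193958244882204600511009901679107389536757320349291408090478130176451225793454643371827380639389193329,
  1212036683164589182737523438230588508672352736606729337373566010716473112550086252593778802923601918512364626417816488154884998144,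
  2469837103520362251102383195725710402412281712030920875591132835858180472068736389144617072106599691890764586542220351460164839377920,
  4280071059234347134060991938955865555528142367891346695000481369481781637343764946808199451539326433998020635260416028527383934576620431,
  8725209412583958836697076936747820886680674998134142943111370918092489096088409652137089382126764343622791466391031682035086764466950142976,
  17809610296824583758289372458047135791076181933606591182970984111534306510106634591045447204353196225383915272313806531772809429354007490462720,
  30380069967872484543904974635516507262960339633271981181212099344566041398439746348429240344952946712025712463875233542360463611571768865610034063,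
  61259006010455696660882675279573585030854542325481533830115937688615497465401557203685372891819356861317629659222435778754869375372296335577323664271,
  119829914251591859697174426322029485239245677438600241697814899847931698208058331254958183357467138254045343185548568568516164890668152442320347614444544]

/-- the mask of the `i`-th simplex -/
def mF (i : Fin 46) : ℕ := masks.getD i 0

/-- decoding of base 2048 with offset 1024 -/
def unpack : ℕ → ℕ → List ℤ
  | 0, _ => []
  | n + 1, m => (((m % 2048 : ℕ) : ℤ) - 1024) :: unpack n (m / 2048)

/-- rows of the inverse matrix -/
def gR (i : ℕ) : List ℤ := unpack 46 (gT.getD i 0)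

/-- rows of the connection matrix -/
def lR (i : ℕ) : List ℤ := masks.map fun m => if masks.getD i 0 &&& m = 0 then 0 else 1

/-- rows of the first certificate -/
def cR (i : ℕ) : List ℤ := unpack (i + 1) (cT.getD i 0)

/-- rows of the second certificate -/
def bR (i : ℕ) : List ℤ := unpack (i + 1) (bT.getD i 0)

/-- the inverse matrix -/
def gF (i j : Fin 46) : ℤ := (gR i).getD j 0

/-- the connection matrix -/
def lF (i j : Fin 46) : ℤ := if mF i &&& mF j = 0 then 0 else 1

/-- the permutation -/
def sF (i : Fin 46) : Fin 46 := ⟨sT.getD i 0 % 46, Nat.mod_lt _ (by norm_num)⟩

/-- the form `149 |y|² + 20 g` -/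
def mC (i j : Fin 46) : ℤ := (if i = j then 149 else 0) + 20 * gF i j

/-- the form `3 (149 |y|² - 20 g) + 6 (2 |y|² - S - Sᵀ)` -/
def mB (i j : Fin 46) : ℤ := 3 * ((if i = j then 149 else 0) - 20 * gF i j)
  + 6 * ((if i = j then 2 else 0) - (if sF i = j then 1 else 0) - (if sF j = i then 1 else 0))

theorem c1 (i j : Fin 46) : lF i j = if mF i &&& mF j = 0 then 0 else 1 := rfl

theorem c2 : ∀ i j : Fin 46, dotL (lR i) (gR j) = if i = j then 1 else 0 := by
  decide +kernel

theorem c2' (i : ℕ) : (lR i).length = 46 := by
  rw [lR, List.length_map]
  rfl

theorem c2'' : ∀ i j : Fin 46, (lR i).getD j 0 = lF i j := by decide +kernel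

theorem c3 : ∀ i j, gF i j = gF j i := by decide +kernel

theorem c4 : ∀ i j, gF (sF i) (sF j) = gF i j := by decide +kernel

theorem c4' : ∀ i, sF (sF (sF i)) = i := by decide +kernel

theorem c5 : ∀ i : Fin 46, ∑ j : Fin 46, |40 * 40 * mC i j - dotL (cR i) (cR j)|
    ≤ 2 * (40 * 40 * mC i i - dotL (cR i) (cR i)) := by decide +kernel

theorem unpack_length : ∀ (n m : ℕ), (unpack n m).length = n := by
  intro n
  induction n with
  | zero => intro m; rfl
  | succ n ih => intro m; simp [unpack, ih]

theorem c5' (i : Fin 46) : (cR i).length ≤ 46 := by
  rw [cR, unpack_length]
  omega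

theorem c6 : ∀ i : Fin 46, ∑ j : Fin 46, |40 * 40 * mB i j - dotL (bR i) (bR j)|
    ≤ 2 * (40 * 40 * mB i i - dotL (bR i) (bR i)) := by decide +kernel

theorem c6' (i : Fin 46) : (bR i).length ≤ 46 := by
  rw [bR, unpack_length]
  omega

theorem c6'' : ∀ i j, mB i j = mB j i := by decide +kernel

theorem c7 : 149 * ∑ i : Fin 46, (xT.getD i 0) ^ 2
    < 20 * ∑ i : Fin 46, ∑ j : Fin 46, gF i j * xT.getD i 0 * xT.getD j 0 := by decide +kernel

/-- the subset of `Fin 7` with bit mask `m` -/
def dec (m : ℕ) : Finset (Fin 7) := Finset.univ.filter fun i => m.testBit i

/-- The complex: the nonempty subsets of three tetrahedra and three triangles. -/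
def cx : Finset (Finset (Fin 7)) := Finset.univ.filter fun x => x.Nonempty ∧
  (x ⊆ {0, 1, 3, 4} ∨ x ⊆ {0, 2, 3, 5} ∨ x ⊆ {1, 2, 4, 5} ∨ x ⊆ {0, 3, 6} ∨ x ⊆ {1, 4, 6} ∨
    x ⊆ {2, 5, 6})

theorem cx_card : cx.card = 46 := by decide +kernel

theorem dec_mem : ∀ i, dec (mF i) ∈ cx := by decide +kernel

theorem dec_inj : ∀ i j, dec (mF i) = dec (mF j) → i = j := by decide +kernel

theorem dec_inter : ∀ i j, (dec (mF i) ∩ dec (mF j)).Nonempty ↔ ¬ mF i &&& mF j = 0 := by
  decide +kernel

/-- numbering of the simplices -/
noncomputable def e : Fin 46 ≃ cx := Equiv.ofBijective (fun i => ⟨dec (mF i), dec_mem i⟩) (by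
  rw [Fintype.bijective_iff_injective_and_card]
  refine ⟨fun i j h => dec_inj i j (congrArg Subtype.val h), ?_⟩
  rw [Fintype.card_fin, Fintype.card_coe, cx_card])

theorem e_val (i : Fin 46) : ((e i : cx) : Finset (Fin 7)) = dec (mF i) := rfl

theorem cx_complex : IsComplex cx := by
  intro x hx
  simp only [cx, Finset.mem_filter, Finset.mem_univ, true_and] at hx
  refine ⟨hx.1, fun y hy hne => ?_⟩
  simp only [cx, Finset.mem_filter, Finset.mem_univ, true_and]
  refine ⟨hne, ?_⟩
  rcases hx.2 with h | h | h | h | h | h
  · exact Or.inl (hy.trans h)
  · exact Or.inr (Or.inl (hy.trans h))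
  · exact Or.inr (Or.inr (Or.inl (hy.trans h)))
  · exact Or.inr (Or.inr (Or.inr (Or.inl (hy.trans h))))
  · exact Or.inr (Or.inr (Or.inr (Or.inr (Or.inl (hy.trans h)))))
  · exact Or.inr (Or.inr (Or.inr (Or.inr (Or.inr (hy.trans h)))))

theorem cx_connected : IsConnected cx := by
  have hT : ∀ x ∈ cx, ∃ t ∈ cx, (x ∩ t).Nonempty ∧ (6 : Fin 7) ∈ t := by
    intro x hx
    obtain ⟨v, hv⟩ := (cx_complex x hx).1
    have key : ∀ v : Fin 7, ∃ t ∈ cx, v ∈ t ∧ (6 : Fin 7) ∈ t := by decide +kernel
    obtain ⟨t, ht, hvt, h6⟩ := key v
    exact ⟨t, ht, ⟨v, Finset.mem_inter.2 ⟨hv, hvt⟩⟩, h6⟩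
  refine ⟨⟨_, (e 0).2⟩, ?_⟩
  intro x hx y hy
  obtain ⟨t, ht, h1, h2⟩ := hT x hx
  obtain ⟨u, hu, h3, h4⟩ := hT y hy
  refine Relation.ReflTransGen.head (b := t) ⟨ht, h1⟩ ?_
  refine Relation.ReflTransGen.head (b := u) ⟨hu, ⟨6, Finset.mem_inter.2 ⟨h2, h4⟩⟩⟩ ?_
  refine Relation.ReflTransGen.single ⟨hy, ?_⟩
  rw [Finset.inter_comm]
  exact h3

/-- the inverse matrix, indexed by the simplices -/
noncomputable def gG : Matrix cx cx ℝ := Matrix.of fun x y => (gF (e.symm x) (e.symm y) : ℝ)

theorem mul_gG : connMatrix cx * gG = 1 := by
  ext x y
  obtain ⟨i, rfl⟩ := e.surjective x
  obtain ⟨j, rfl⟩ := e.surjective y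
  rw [Matrix.mul_apply, ← e.sum_comp]
  have h1 : ∀ k, connMatrix cx (e i) (e k) * gG (e k) (e j) = ((lF i k * gF k j : ℤ) : ℝ) := by
    intro k
    simp only [connMatrix, gG, Matrix.of_apply, e_val, Equiv.symm_apply_apply, dec_inter, c1]
    split_ifs <;> simp_all
  simp only [h1]
  rw [← Int.cast_sum]
  have h2 : ∑ k, lF i k * gF k j = dotL (lR i) (gR j) := by
    rw [dotL_eq _ _ 46 (c2' i).le, Finset.sum_range]
    apply Finset.sum_congr rfl
    intro k _
    rw [c3 k j, c2'']
    rfl
  rw [h2, c2, Matrix.one_apply]
  by_cases hij : i = j
  · rw [if_pos hij, if_pos (by rw [hij]), Int.cast_one]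
  · rw [if_neg hij, if_neg (fun h => hij (e.injective h)), Int.cast_zero]

theorem inv_eq : (connMatrix cx)⁻¹ = gG := Matrix.inv_eq_right_inv mul_gG

theorem qf_gG (y : cx → ℝ) : qf gG y = ∑ i, ∑ j, (gF i j : ℝ) * y (e i) * y (e j) := by
  unfold qf
  rw [← e.sum_comp]
  apply Finset.sum_congr rfl
  intro i _
  rw [← e.sum_comp]
  apply Finset.sum_congr rfl
  intro j _
  simp only [gG, Matrix.of_apply, Equiv.symm_apply_apply]

theorem final : ∃ μ : ℝ, Module.End.HasEigenvalue (Matrix.toLin' gG) μ ∧
      (∀ ν, Module.End.HasEigenvalue (Matrix.toLin' gG) ν → ν ≠ μ → |ν| < μ) ∧
      2 ≤ Module.finrank ℝ (Module.End.eigenspace (Matrix.toLin' gG) μ) := by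
  apply main (σ := fun x => e (sF (e.symm x))) (c := 149 / 20)
  · unfold Matrix.IsHermitian
    ext x y
    rw [Matrix.conjTranspose_apply]
    simp only [gG, Matrix.of_apply, star_trivial]
    rw [c3]
  · intro x
    simp only [Equiv.symm_apply_apply, c4', Equiv.apply_symm_apply]
  · intro x y
    simp only [gG, Matrix.of_apply, Equiv.symm_apply_apply, c4]
  · refine ⟨fun z => ((xT.getD (e.symm z) 0 : ℤ) : ℝ), ?_⟩
    rw [qf_gG, ← e.sum_comp]
    simp only [Equiv.symm_apply_apply]
    have h := c7
    have h' : ((149 * ∑ i : Fin 46, (xT.getD i 0) ^ 2 : ℤ) : ℝ)
      < ((20 * ∑ i : Fin 46, ∑ j : Fin 46, gF i j * xT.getD i 0 * xT.getD j 0 : ℤ) : ℝ) := by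
      exact_mod_cast h
    push_cast at h'
    linarith
  · intro y hy
    have hy' : ∀ i, y (e (sF i)) = y (e i) := by
      intro i
      have := hy (e i)
      simpa using this
    have h := cert mB (fun i => bR i) 40 (by norm_num) c6' c6 c6'' (fun i => y (e i))
    rw [qf_gG, ← e.sum_comp]
    have e1 : ∑ i, ∑ j, (mB i j : ℝ) * y (e i) * y (e j)
        = 3 * (149 * ∑ i, y (e i) ^ 2 - 20 * ∑ i, ∑ j, (gF i j : ℝ) * y (e i) * y (e j)) := by
      have e2 : ∀ i j, (mB i j : ℝ) * y (e i) * y (e j)
          = (if i = j then 459 * y (e i) ^ 2 else 0) - 60 * ((gF i j : ℝ) * y (e i) * y (e j))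
            - (if sF i = j then 6 * y (e i) ^ 2 else 0) - (if sF j = i then 6 * y (e j) ^ 2 else 0) := by
        intro i j
        simp only [mB]
        push_cast
        by_cases h1 : i = j
        · subst h1
          by_cases h2 : sF i = i
          · simp [h2]; ring
          · simp [h2]; ring
        · by_cases h2 : sF i = j
          · by_cases h3 : sF j = i
            · have h4 : y (e j) = y (e i) := by rw [← h2]; exact hy' i
              simp [h1, h2, h3, h4]; ring
            · have h4 : y (e j) = y (e i) := by rw [← h2]; exact hy' i
              simp [h1, h2, h3, h4]; ring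
          · by_cases h3 : sF j = i
            · have h4 : y (e i) = y (e j) := by rw [← h3]; exact hy' j
              simp [h1, h2, h3, h4]; ring
            · simp [h1, h2, h3]; ring
      simp only [e2, Finset.sum_sub_distrib]
      have e3 : ∑ i, ∑ j, (if i = j then 459 * y (e i) ^ 2 else 0) = ∑ i, 459 * y (e i) ^ 2 := by
        apply Finset.sum_congr rfl
        intro i _
        rw [Finset.sum_ite_eq]
        simp
      have e4 : ∑ i, ∑ j, (if sF i = j then 6 * y (e i) ^ 2 else 0) = ∑ i, 6 * y (e i) ^ 2 := by
        apply Finset.sum_congr rfl
        intro i _
        rw [Finset.sum_ite_eq]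
        simp
      have e5 : ∑ i, ∑ j, (if sF j = i then 6 * y (e j) ^ 2 else 0) = ∑ i, 6 * y (e i) ^ 2 := by
        rw [Finset.sum_comm]
        apply Finset.sum_congr rfl
        intro i _
        rw [Finset.sum_ite_eq]
        simp
      rw [e3, e4, e5]
      simp only [← Finset.mul_sum]
      ring
    rw [e1] at h
    linarith
  · intro y
    have hsym : ∀ i j, mC i j = mC j i := by
      intro i j
      simp only [mC, c3 i j, eq_comm]
    have h := cert mC (fun i => cR i) 40 (by norm_num) c5' c5 hsym (fun i => y (e i))
    rw [qf_gG, ← e.sum_comp]
    have e1 : ∑ i, ∑ j, (mC i j : ℝ) * y (e i) * y (e j)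
        = 149 * ∑ i, y (e i) ^ 2 + 20 * ∑ i, ∑ j, (gF i j : ℝ) * y (e i) * y (e j) := by
      have e2 : ∀ i j, (mC i j : ℝ) * y (e i) * y (e j)
          = (if i = j then 149 * y (e i) ^ 2 else 0) + 20 * ((gF i j : ℝ) * y (e i) * y (e j)) := by
        intro i j
        simp only [mC]
        push_cast
        by_cases h1 : i = j
        · subst h1; simp; ring
        · simp [h1]; ring
      simp only [e2, Finset.sum_add_distrib]
      have e3 : ∑ i, ∑ j, (if i = j then 149 * y (e i) ^ 2 else 0) = ∑ i, 149 * y (e i) ^ 2 := by
        apply Finset.sum_congr rfl
        intro i _
        rw [Finset.sum_ite_eq]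
        simp
      rw [e3]
      simp only [← Finset.mul_sum]
    rw [e1] at h
    linarith

/-- **Negative answer to Q1 of MP_5fc97f_co.** There is a connected complex on seven vertices (with
46 simplices) such that the largest eigenvalue `μ` of the inverse of the connection matrix has
multiplicity at least two; moreover `|ν| < μ` for all other eigenvalues `ν`. -/
theorem result : ∃ G : Finset (Finset (Fin 7)), IsComplex G ∧ IsConnected G ∧
    IsUnit (connMatrix G).det ∧
    ∃ μ : ℝ, IsEigenvalue (connMatrix G)⁻¹ μ ∧
      (∀ ν, IsEigenvalue (connMatrix G)⁻¹ ν → ν ≠ μ → |ν| < μ) ∧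
      2 ≤ eigenDim (connMatrix G)⁻¹ μ := by
  refine ⟨cx, cx_complex, cx_connected, Matrix.isUnit_det_of_right_inverse mul_gG, ?_⟩
  rw [inv_eq]
  exact final

end ex

end Pool.Agent.Results.MP_5fc97f_co.DoubleTop
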